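import Pool.Agent.R827.SN6
import Pool.Agent.R827.CL1

/-!
# A consistent counterexample: first countable subnormal metacompact spaces need not be
# subparacompact (MP_df1441_gt)

Part one: for every set `I` of cardinality larger than the continuum there is a notion of forcing
`P` which is countably closed and has the `𝔠⁺`-chain condition, such that all conditions force the
combinatorial principle `Principle I ω₁`: there is a family `F i`, `i ∈ I`, of subsets of `ω₁` which
is a generalised `Q`-set.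

Part two: the principle implies that there is a zero-dimensional Hausdorff first countable
metacompact subnormal space which is not subparacompact. So the statement in question cannot be
proved in ZFC.
-/

set_option autoImplicit false

namespace Pool.Agent.Results.MP_df1441_gt.ConsistentCounterexample

open Set Topology TopologicalSpace Cardinal Pool.Agent.R827.SN

/-- Disjoint closed sets lie in disjoint `G_δ`-sets. -/
def Subnormal (X : Type) [TopologicalSpace X] : Prop :=
  ∀ S T : Set X, IsClosed S → IsClosed T → Disjoint S T →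
    ∃ A B : Set X, IsGδ A ∧ IsGδ B ∧ S ⊆ A ∧ T ⊆ B ∧ Disjoint A B

/-- Every open cover has a point-finite open refinement. -/
def Metacompact (X : Type) [TopologicalSpace X] : Prop :=
  ∀ 𝒰 : Set (Set X), (∀ U ∈ 𝒰, IsOpen U) → ⋃₀ 𝒰 = Set.univ →
    ∃ 𝒱 : Set (Set X), (∀ V ∈ 𝒱, IsOpen V ∧ ∃ U ∈ 𝒰, V ⊆ U) ∧ ⋃₀ 𝒱 = Set.univ ∧
      ∀ x, {V ∈ 𝒱 | x ∈ V}.Finite

/-- For every open cover there is a sequence of open refinements covering `X`, such that every point
belongs to only finitely many members of one of them. -/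
def Submetacompact (X : Type) [TopologicalSpace X] : Prop :=
  ∀ 𝒰 : Set (Set X), (∀ U ∈ 𝒰, IsOpen U) → ⋃₀ 𝒰 = Set.univ →
    ∃ 𝒱 : ℕ → Set (Set X), (∀ n, ∀ V ∈ 𝒱 n, IsOpen V ∧ ∃ U ∈ 𝒰, V ⊆ U) ∧
      (∀ n, ⋃₀ 𝒱 n = Set.univ) ∧ ∀ x : X, ∃ n, {V ∈ 𝒱 n | x ∈ V}.Finite

/-- Every open cover has a `σ`-discrete closed refinement. -/
def Subparacompact (X : Type) [TopologicalSpace X] : Prop :=
  ∀ 𝒰 : Set (Set X), (∀ U ∈ 𝒰, IsOpen U) → ⋃₀ 𝒰 = Set.univ →
    ∃ 𝒱 : ℕ → Set (Set X), (∀ n, ∀ V ∈ 𝒱 n, IsClosed V ∧ ∃ U ∈ 𝒰, V ⊆ U) ∧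
      (∀ n, ∀ x : X, ∃ W ∈ 𝓝 x, {V ∈ 𝒱 n | (W ∩ V).Nonempty}.Subsingleton) ∧
      ∀ x : X, ∃ n, ∃ V ∈ 𝒱 n, x ∈ V

/-- There is a zero-dimensional Hausdorff, first countable, subnormal, metacompact (in particular
submetacompact) space which is not subparacompact. -/
def Counterexample : Prop :=
  ∃ (X : Type) (_ : TopologicalSpace X),
    T2Space X ∧ (∃ 𝓑 : Set (Set X), IsTopologicalBasis 𝓑 ∧ ∀ U ∈ 𝓑, IsClopen U) ∧
    FirstCountableTopology X ∧ Subnormal X ∧ Metacompact X ∧ Submetacompact X ∧ ¬ Subparacompact X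

/-- Every countable decreasing sequence of conditions has a lower bound. -/
def CountablyClosed (P : Type) [Preorder P] : Prop :=
  ∀ s : ℕ → P, (∀ m n, m ≤ n → s n ≤ s m) → ∃ q, ∀ n, q ≤ s n

/-- In every family of more than `𝔠` conditions there are two compatible ones. -/
def ContinuumPlusCC (P : Type) [Preorder P] : Prop :=
  ∀ (K : Type), 𝔠 < #K → ∀ p : K → P, ∃ k l, k ≠ l ∧ ∃ q, q ≤ p k ∧ q ≤ p l

/-- **Main theorem.** The principle can be forced, and it implies that there is a counterexample. -/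
theorem result :
    (∀ I : Type, 𝔠 < #I → ∃ (P : Type) (_ : Preorder P), Nonempty P ∧ CountablyClosed P ∧
      ContinuumPlusCC P ∧ ∀ p : P, p ∈ PrincipleHolds P I (ℵ₁ : Cardinal.{0}).ord.ToType) ∧
    (∀ (I W : Type) (_ : LinearOrder W), Principle I W → Counterexample) := by
  constructor
  · intro I hI
    have hIne : Nonempty I := by
      rw [← mk_ne_zero_iff]
      exact (bot_le.trans_lt hI).ne'
    have hne : Nonempty Pool.Agent.R827.CL.Om := by
      obtain ⟨a, _⟩ := Pool.Agent.R827.CL.exists_ub ∅ countable_empty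
      exact ⟨a⟩
    have hb : ∀ s : Set Pool.Agent.R827.CL.Om, s.Countable → ∃ b, ∀ x ∈ s, x < b :=
      Pool.Agent.R827.CL.exists_ub
    have hW : #Pool.Agent.R827.CL.Om ≤ 𝔠 :=
      (mk_le_aleph_one Pool.Agent.R827.CL.countable_Iio).trans aleph_one_le_continuum
    refine ⟨Q I Pool.Agent.R827.CL.Om, inferInstance, inferInstance, closed_Q, ?_, ?_⟩
    · intro K hK p
      obtain ⟨k, l, hkl, _, h⟩ := exists_compatible (Ty := Unit) hW
        (by simpa using one_le_aleph0.trans aleph0_le_continuum) hK p (fun _ => ())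
      exact ⟨k, l, hkl, h⟩
    · exact fun p => forced hI Pool.Agent.R827.CL.countable_Iio hb p
  · intro I W _ h
    obtain ⟨δ, r, hG, hr⟩ := exists_good h
    refine ⟨Sp δ r, inferInstance, inferInstance, exists_clopen_basis, inferInstance,
      fun S T hS hT hST => subnormal hG S T hS hT hST, fun 𝒰 h1 h2 => metacompact 𝒰 h1 h2, ?_, ?_⟩
    · intro 𝒰 h1 h2
      obtain ⟨𝒱, h3, h4, h5⟩ := metacompact 𝒰 h1 h2
      exact ⟨fun _ => 𝒱, fun _ => h3, fun _ => h4, fun x => ⟨0, h5 x⟩⟩
    · intro hsub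
      obtain ⟨𝒱, h3, h4, h5⟩ := hsub (cov δ r) isOpen_cov sUnion_cov
      refine not_subparacompact hG hr ⟨𝒱, h3, fun n x => ?_, h5⟩
      obtain ⟨O, hO, hO'⟩ := h4 n x
      obtain ⟨G, hG1, hG2, hG3⟩ := mem_nhds_iff.1 hO
      refine ⟨G, hG2, hG3, hO'.anti ?_⟩
      rintro V ⟨hV, y, hy, hyV⟩
      exact ⟨hV, y, hG1 hy, hyV⟩

end Pool.Agent.Results.MP_df1441_gt.ConsistentCounterexample
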